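import Mathlib

/-!
# Polycyclic codes over the field with two elements, and iso-dual codes
-/

namespace Q220.IsoDual

open Polynomial

/-- The polynomial `c_0 + c_1 x + ... + c_{n-1} x^{n-1}` of a vector `c` of length `n`. -/
noncomputable def toPoly {n : ℕ} (c : Fin n → ZMod 2) : (ZMod 2)[X] :=
  ∑ k, C (c k) * X ^ (k : ℕ)

/-- The polycyclic code of length `n` with respect to `t` which is generated by `g`: the vectors
whose class in `F_2[x]/(t)` lies in the ideal generated by the class of `g`. -/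
def polycyclic (n : ℕ) (t g : (ZMod 2)[X]) : Set (Fin n → ZMod 2) :=
  {c | Ideal.Quotient.mk (Ideal.span {t}) (toPoly c) ∈
    Ideal.span {Ideal.Quotient.mk (Ideal.span {t}) g}}

/-- The dual code with respect to the standard inner product. -/
def dual {n : ℕ} (D : Set (Fin n → ZMod 2)) : Set (Fin n → ZMod 2) :=
  {v | ∀ u ∈ D, ∑ k, u k * v k = 0}

/-- A code is iso-dual if some permutation of the coordinates maps it onto its dual. -/
def IsIsoDual {n : ℕ} (D : Set (Fin n → ZMod 2)) : Prop :=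
  ∃ σ : Equiv.Perm (Fin n), (fun c : Fin n → ZMod 2 => c ∘ σ) '' D = dual D

/-- The trinomial `x^n + x^i + 1`. -/
noncomputable def tri (n i : ℕ) : (ZMod 2)[X] := X ^ n + X ^ i + 1

theorem toPoly_coeff {n : ℕ} (c : Fin n → ZMod 2) (j : ℕ) :
    (toPoly c).coeff j = if h : j < n then c ⟨j, h⟩ else 0 := by
  unfold toPoly
  rw [finsetSum_coeff]
  simp only [coeff_C_mul, coeff_X_pow]
  split_ifs with h
  · rw [Finset.sum_eq_single ⟨j, h⟩]
    · simp
    · intro b _ hb
      have : ¬ (j = (b : ℕ)) := fun e => hb (Fin.ext e.symm)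
      simp [this]
    · simp
  · apply Finset.sum_eq_zero
    intro b _
    have : ¬ (j = (b : ℕ)) := fun e => h (e ▸ b.2)
    simp [this]

theorem toPoly_coeff_lt {n : ℕ} (c : Fin n → ZMod 2) (k : Fin n) :
    (toPoly c).coeff (k : ℕ) = c k := by
  rw [toPoly_coeff, dif_pos k.2]

theorem toPoly_natDegree {n : ℕ} (hn : 0 < n) (c : Fin n → ZMod 2) :
    (toPoly c).natDegree ≤ n - 1 := by
  rw [natDegree_le_iff_coeff_eq_zero]
  intro N hN
  rw [toPoly_coeff, dif_neg (by omega)]

/-- `toPoly` as a linear map. -/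
noncomputable def toPolyLin (n : ℕ) : (Fin n → ZMod 2) →ₗ[ZMod 2] (ZMod 2)[X] where
  toFun := toPoly
  map_add' c d := by
    ext j
    simp only [toPoly_coeff, coeff_add, Pi.add_apply]
    split_ifs <;> simp
  map_smul' a c := by
    ext j
    simp only [toPoly_coeff, coeff_smul, Pi.smul_apply, RingHom.id_apply]
    split_ifs <;> simp

theorem mem_polycyclic {n : ℕ} {t g : (ZMod 2)[X]} (h : g ∣ t) (c : Fin n → ZMod 2) :
    c ∈ polycyclic n t g ↔ g ∣ toPoly c := by
  unfold polycyclic
  rw [Set.mem_ofPred_eq, Ideal.mem_span_singleton]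
  constructor
  · rintro ⟨a, ha⟩
    obtain ⟨b, rfl⟩ := Ideal.Quotient.mk_surjective a
    rw [← map_mul, Ideal.Quotient.eq, Ideal.mem_span_singleton] at ha
    have h1 : g ∣ toPoly c - g * b := h.trans ha
    have h2 : g ∣ (toPoly c - g * b) + g * b := dvd_add h1 (dvd_mul_right g b)
    simpa using h2
  · intro hd
    exact map_dvd _ hd

/-- The code as a subspace. -/
noncomputable def codeSub (n : ℕ) (g : (ZMod 2)[X]) : Submodule (ZMod 2) (Fin n → ZMod 2) :=
  LinearMap.ker ((AdjoinRoot.mkₐ g).toLinearMap ∘ₗ (toPolyLin n))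

theorem mem_codeSub {n : ℕ} {g : (ZMod 2)[X]} (c : Fin n → ZMod 2) :
    c ∈ codeSub n g ↔ g ∣ toPoly c := by
  unfold codeSub
  rw [LinearMap.mem_ker, LinearMap.comp_apply]
  exact AdjoinRoot.mk_eq_zero

theorem finrank_codeSub {n : ℕ} {g : (ZMod 2)[X]} (hg : g.Monic) (hd : g.natDegree ≤ n) :
    Module.finrank (ZMod 2) (codeSub n g) + g.natDegree = n := by
  have h := LinearMap.finrank_range_add_finrank_ker
    ((AdjoinRoot.mkₐ g).toLinearMap ∘ₗ (toPolyLin n))
  have hs : LinearMap.range ((AdjoinRoot.mkₐ g).toLinearMap ∘ₗ (toPolyLin n)) = ⊤ := by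
    rw [LinearMap.range_eq_top]
    intro y
    obtain ⟨f, rfl⟩ := AdjoinRoot.mk_surjective y
    refine ⟨fun k => (f %ₘ g).coeff k, ?_⟩
    rw [LinearMap.comp_apply]
    change AdjoinRoot.mk g (toPoly _) = AdjoinRoot.mk g f
    have e : toPoly (n := n) (fun k => (f %ₘ g).coeff k) = f %ₘ g := by
      ext j
      rw [toPoly_coeff]
      split_ifs with hj
      · rfl
      · symm
        apply coeff_eq_zero_of_degree_lt
        refine lt_of_lt_of_le (degree_modByMonic_lt f hg) ?_
        refine degree_le_natDegree.trans ?_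
        exact_mod_cast hd.trans (not_lt.mp hj)
    rw [e, AdjoinRoot.mk_eq_mk]
    have := modByMonic_add_div f g
    refine ⟨-(f /ₘ g), ?_⟩
    linear_combination this
  rw [hs, finrank_top] at h
  have h2 : Module.finrank (ZMod 2) (AdjoinRoot g) = g.natDegree := by
    have := (AdjoinRoot.powerBasis' hg).finrank
    rw [this]; rfl
  have h3 : Module.finrank (ZMod 2) (Fin n → ZMod 2) = n := by simp
  unfold codeSub
  omega

/-- A code of dimension `n / 2` which a permutation maps into its dual is iso-dual. -/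
theorem isIsoDual_of_orth {n : ℕ} (W : Submodule (ZMod 2) (Fin n → ZMod 2))
    (hW : 2 * Module.finrank (ZMod 2) W = n) (σ : Equiv.Perm (Fin n))
    (h : ∀ c ∈ W, ∀ d ∈ W, ∑ k, c k * d (σ k) = 0) :
    IsIsoDual (W : Set (Fin n → ZMod 2)) := by
  classical
  refine ⟨σ, ?_⟩
  let B : LinearMap.BilinForm (ZMod 2) (Fin n → ZMod 2) := dotProductBilin (ZMod 2) (ZMod 2)
  have hB : ∀ u v, B u v = ∑ k, u k * v k := fun u v => rfl
  have hrefl : B.IsRefl := by
    intro u v huv
    rw [hB] at huv ⊢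
    rw [← huv]
    exact Finset.sum_congr rfl (fun k _ => mul_comm _ _)
  have hnd : B.Nondegenerate := by
    constructor
    · intro u hu
      exact dotProduct_eq_zero u hu
    · intro u hu
      refine dotProduct_eq_zero u (fun w => ?_)
      rw [dotProduct_comm]
      exact hu w
  let e : (Fin n → ZMod 2) ≃ₗ[ZMod 2] (Fin n → ZMod 2) :=
    LinearEquiv.funCongrLeft (ZMod 2) (ZMod 2) σ
  have he : ∀ c, e c = c ∘ σ := fun c => rfl
  have hle : W.map (e : (Fin n → ZMod 2) →ₗ[ZMod 2] (Fin n → ZMod 2)) ≤ B.orthogonal W := by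
    rintro _ ⟨d, hd, rfl⟩
    rw [LinearMap.BilinForm.mem_orthogonal_iff]
    intro c hc
    exact h c hc d hd
  have hfr : Module.finrank (ZMod 2) (W.map (e : (Fin n → ZMod 2) →ₗ[ZMod 2] (Fin n → ZMod 2)))
      = Module.finrank (ZMod 2) W := LinearEquiv.finrank_map_eq e W
  have hfo : Module.finrank (ZMod 2) (B.orthogonal W) = n - Module.finrank (ZMod 2) W := by
    have := LinearMap.BilinForm.finrank_orthogonal hnd W
    rw [this]; simp
  have heq : W.map (e : (Fin n → ZMod 2) →ₗ[ZMod 2] (Fin n → ZMod 2)) = B.orthogonal W :=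
    Submodule.eq_of_le_of_finrank_eq hle (by omega)
  ext v
  constructor
  · rintro ⟨d, hd, rfl⟩
    have : e d ∈ B.orthogonal W := heq ▸ Submodule.mem_map_of_mem hd
    intro u hu
    exact this u hu
  · intro hv
    have : v ∈ B.orthogonal W := fun u hu => hv u hu
    rw [← heq] at this
    obtain ⟨d, hd, hde⟩ := this
    exact ⟨d, hd, hde⟩

end Q220.IsoDual
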