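import Pool.Agent.Q220.IsoDual.Basic

namespace Q220.IsoDual

open Polynomial

/-- the index map -/
def triIdx (m j k : ℕ) : ℕ := if k < j ∨ (m ≤ k ∧ k < m + j) then m + j - 1 - k else 2 * m + j - 1 - k

theorem triIdx_lt {m j k : ℕ} (hj : 0 < j) (hjm : j < m) (hk : k < 2 * m) :
    triIdx m j k < 2 * m := by
  unfold triIdx; split_ifs <;> omega

theorem triIdx_invol {m j k : ℕ} (hj : 0 < j) (hjm : j < m) (hk : k < 2 * m) :
    triIdx m j (triIdx m j k) = k := by
  unfold triIdx; split_ifs <;> omega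

/-- the permutation -/
def triPerm (m j : ℕ) (hj : 0 < j) (hjm : j < m) : Equiv.Perm (Fin (2 * m)) where
  toFun k := ⟨triIdx m j k, triIdx_lt hj hjm k.2⟩
  invFun k := ⟨triIdx m j k, triIdx_lt hj hjm k.2⟩
  left_inv k := by
    ext; exact triIdx_invol hj hjm k.2
  right_inv k := by
    ext; exact triIdx_invol hj hjm k.2

/-- the bilinear form on polynomials -/
noncomputable def form (m j : ℕ) : (ZMod 2)[X] →ₗ[ZMod 2] (ZMod 2)[X] →ₗ[ZMod 2] ZMod 2 :=
  LinearMap.mk₂ (ZMod 2)
    (fun P Q => ∑ k ∈ Finset.range (2 * m), P.coeff k * Q.coeff (triIdx m j k))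
    (by intro P P' Q; simp [add_mul, Finset.sum_add_distrib])
    (by intro a P Q; simp [mul_assoc, Finset.mul_sum])
    (by intro P Q Q'; simp [mul_add, Finset.sum_add_distrib])
    (by intro a P Q; simp [Finset.mul_sum, mul_left_comm])

theorem form_apply (m j : ℕ) (P Q : (ZMod 2)[X]) :
    form m j P Q = ∑ k ∈ Finset.range (2 * m), P.coeff k * Q.coeff (triIdx m j k) := rfl

theorem gen_coeff (m j s k : ℕ) :
    (((X ^ m + X ^ j + 1 : (ZMod 2)[X])) * X ^ s).coeff k =
      (if k = m + s then 1 else 0) + (if k = j + s then 1 else 0) + (if k = s then 1 else 0) := by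
  rw [add_mul, add_mul, one_mul, ← pow_add, ← pow_add]
  simp only [coeff_add, coeff_X_pow]

theorem form_gen {m j s r : ℕ} (hj : 0 < j) (hjm : j < m) (hs : s < m) (hr : r < m) :
    form m j ((X ^ m + X ^ j + 1) * X ^ s) ((X ^ m + X ^ j + 1) * X ^ r) = 0 := by
  rw [form_apply]
  simp only [gen_coeff]
  simp only [add_mul, ite_mul, one_mul, zero_mul, Finset.sum_add_distrib,
    Finset.sum_ite_eq', Finset.mem_range]
  rw [if_pos (show m + s < 2 * m by omega), if_pos (show j + s < 2 * m by omega),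
    if_pos (show s < 2 * m by omega)]
  have key : ∀ a b c : ℕ, a = triIdx m j (m + s) → b = triIdx m j (j + s) → c = triIdx m j s →
     ((if a = m + r then (1 : ZMod 2) else 0) + (if a = j + r then 1 else 0) +
      (if a = r then 1 else 0)) +
     ((if b = m + r then 1 else 0) + (if b = j + r then 1 else 0) + (if b = r then 1 else 0)) +
     ((if c = m + r then 1 else 0) + (if c = j + r then 1 else 0) + (if c = r then 1 else 0))
      = 0 := by
    intro a b c ha hb hc
    have hb' : (j + s < m ∧ b = 2 * m - 1 - s) ∨ (m ≤ j + s ∧ b = m - 1 - s) := by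
      rw [hb]; unfold triIdx; split_ifs <;> omega
    have hac : (s < j ∧ a = j - 1 - s ∧ c = m + j - 1 - s) ∨
        (j ≤ s ∧ a = m + j - 1 - s ∧ c = 2 * m + j - 1 - s) := by
      rw [ha, hc]; unfold triIdx; split_ifs <;> omega
    clear ha hb hc
    by_cases h1 : r + s + 1 = j <;> by_cases h2 : r + s + 1 = m <;>
      by_cases h3 : r + s + 1 = m + j <;>
      (rcases hb' with hb' | hb' <;> rcases hac with hac | hac) <;>
      first
      | (exfalso; omega)
      | (repeat' (first | rw [if_pos (by omega)] | rw [if_neg (by omega)])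
         all_goals decide)
  exact key _ _ _ rfl rfl rfl

theorem form_zero {m j : ℕ} (hj : 0 < j) (hjm : j < m) (a b : (ZMod 2)[X])
    (ha : a.natDegree < m) (hb : b.natDegree < m) :
    form m j ((X ^ m + X ^ j + 1) * a) ((X ^ m + X ^ j + 1) * b) = 0 := by
  obtain ⟨u, hu⟩ : ∃ u : ℕ → ZMod 2, a = ∑ i ∈ Finset.range m, C (u i) * X ^ i :=
    ⟨a.coeff, as_sum_range_C_mul_X_pow' a ha⟩
  obtain ⟨v, hv⟩ : ∃ v : ℕ → ZMod 2, b = ∑ i ∈ Finset.range m, C (v i) * X ^ i :=
    ⟨b.coeff, as_sum_range_C_mul_X_pow' b hb⟩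
  have e1 : ∀ (w : ℕ → ZMod 2), (X ^ m + X ^ j + 1 : (ZMod 2)[X]) *
      (∑ i ∈ Finset.range m, C (w i) * X ^ i) =
      ∑ i ∈ Finset.range m, w i • ((X ^ m + X ^ j + 1 : (ZMod 2)[X]) * X ^ i) := by
    intro w
    rw [Finset.mul_sum]
    apply Finset.sum_congr rfl
    intro i _
    rw [smul_eq_C_mul]; ring
  rw [hu, hv, e1, e1, map_sum]
  apply Finset.sum_eq_zero
  intro r hr
  rw [map_sum, LinearMap.sum_apply]
  apply Finset.sum_eq_zero
  intro s hs
  rw [map_smul, map_smul, LinearMap.smul_apply,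
    form_gen hj hjm (Finset.mem_range.mp hs) (Finset.mem_range.mp hr)]
  simp

theorem tri_natDegree {m j : ℕ} (hjm : j < m) :
    (X ^ m + X ^ j + 1 : (ZMod 2)[X]).natDegree = m := by
  rw [add_assoc]
  have h1 : (X ^ j + 1 : (ZMod 2)[X]).degree ≤ (j : ℕ) := by
    refine (degree_add_le _ _).trans (max_le ?_ ?_)
    · rw [degree_X_pow]
    · rw [degree_one]; exact_mod_cast Nat.zero_le j
  rw [natDegree_add_eq_left_of_degree_lt, natDegree_X_pow]
  rw [degree_X_pow]
  exact lt_of_le_of_lt h1 (by exact_mod_cast hjm)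

theorem tri_monic {m j : ℕ} (hjm : j < m) :
    (X ^ m + X ^ j + 1 : (ZMod 2)[X]).Monic := by
  rw [add_assoc]
  apply monic_X_pow_add
  have h1 : (X ^ j + 1 : (ZMod 2)[X]).degree ≤ (j : ℕ) := by
    refine (degree_add_le _ _).trans (max_le ?_ ?_)
    · rw [degree_X_pow]
    · rw [degree_one]; exact_mod_cast Nat.zero_le j
  exact lt_of_le_of_lt h1 (by exact_mod_cast hjm)

theorem orth_tri {m j : ℕ} (hj : 0 < j) (hjm : j < m) (c d : Fin (2 * m) → ZMod 2)
    (hc : (X ^ m + X ^ j + 1 : (ZMod 2)[X]) ∣ toPoly c)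
    (hd : (X ^ m + X ^ j + 1 : (ZMod 2)[X]) ∣ toPoly d) :
    ∑ k, c k * d (triPerm m j hj hjm k) = 0 := by
  have h1 : ∑ k, c k * d (triPerm m j hj hjm k) = form m j (toPoly c) (toPoly d) := by
    rw [form_apply, Finset.sum_range]
    apply Finset.sum_congr rfl
    intro k _
    rw [toPoly_coeff_lt]
    congr 1
    exact (toPoly_coeff_lt d (triPerm m j hj hjm k)).symm
  have hPd := toPoly_natDegree (by omega : 0 < 2 * m) c
  have hQd := toPoly_natDegree (by omega : 0 < 2 * m) d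
  have hdeg : (X ^ m + X ^ j + 1 : (ZMod 2)[X]).natDegree = m := tri_natDegree hjm
  have hg0 : (X ^ m + X ^ j + 1 : (ZMod 2)[X]) ≠ 0 := by
    intro h; rw [h] at hdeg; simp at hdeg; omega
  obtain ⟨a, ha⟩ := hc
  obtain ⟨b, hb⟩ := hd
  have hda : a.natDegree < m := by
    by_cases h0 : a = 0
    · simp [h0]; omega
    · rw [ha, natDegree_mul hg0 h0, hdeg] at hPd; omega
  have hdb : b.natDegree < m := by
    by_cases h0 : b = 0
    · simp [h0]; omega
    · rw [hb, natDegree_mul hg0 h0, hdeg] at hQd; omega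
  rw [h1, ha, hb]
  exact form_zero hj hjm a b hda hdb

end Q220.IsoDual
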